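import Pool.Agent.R120.TF4

/-!
Matchings of tight families of planar convex bodies.

If every `m`-tuple of a family of `n = 2k` planar convex bodies is tight and `4 m ≤ n + 9`, the
family has a matching whose pair hulls have a common point.  Hence the tuple size `3` can be
replaced by the unbounded function `f n = ⌊(n + 9) / 4⌋`.
-/

namespace Pool.Agent.Results.MP_e1ee93_co.TightMatching

/-- The Euclidean plane. -/
abbrev Plane := EuclideanSpace ℝ (Fin 2)

/-- A planar convex body: a compact convex set with nonempty interior. -/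
def IsBody (K : Set Plane) : Prop := Convex ℝ K ∧ IsCompact K ∧ (interior K).Nonempty

/-- The members of the family `A` with index in `S` form a tight tuple: the union over all pairs
`i < j` in `S` of the convex hulls of `A i ∪ A j` is a convex set. -/
def IsTight {n : ℕ} (A : Fin n → Set Plane) (S : Finset (Fin n)) : Prop :=
  Convex ℝ (⋃ i ∈ S, ⋃ j ∈ S, ⋃ (_ : i < j), convexHull ℝ (A i ∪ A j))

/-- The family has a matching (a partition of its `2k` members into `k` disjoint pairs `B i`)
for which the `k` sets `conv (B i)` have a common point. -/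
def HasGoodMatching {k : ℕ} (A : Fin (2 * k) → Set Plane) : Prop :=
  ∃ B : Fin k → Finset (Fin (2 * k)), (∀ i, (B i).card = 2) ∧
    (∀ i j, i ≠ j → Disjoint (B i) (B j)) ∧ (∀ v, ∃ i, v ∈ B i) ∧
    (⋂ i, convexHull ℝ (⋃ v ∈ B i, A v)).Nonempty

/-- Admissible functions: on even `n ≥ 4` the value lies between `3` and `n`, the function is
non-decreasing, and it is unbounded. -/
def Admissible (f : ℕ → ℕ) : Prop :=
  (∀ n, 4 ≤ n → Even n → 3 ≤ f n ∧ f n ≤ n) ∧
  (∀ n n', 4 ≤ n → n ≤ n' → Even n → Even n' → f n ≤ f n') ∧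
  (∀ C, ∃ n, 4 ≤ n ∧ Even n ∧ C ≤ f n)

open Pool.Agent.R120.TF

lemma tight_iff {n : ℕ} (A : Fin n → Set Plane) (S : Finset (Fin n)) (h : IsTight A S) :
    TightOn A S := by
  unfold IsTight at h
  unfold TightOn
  have : (⋃ i ∈ S, ⋃ j ∈ S, ⋃ (_ : i ≠ j), convexHull ℝ (A i ∪ A j)) =
      (⋃ i ∈ S, ⋃ j ∈ S, ⋃ (_ : i < j), convexHull ℝ (A i ∪ A j)) := by
    ext w
    simp only [Set.mem_iUnion]
    constructor
    · rintro ⟨i, hi, j, hj, hij, hw⟩
      rcases lt_or_gt_of_ne hij with h | h
      · exact ⟨i, hi, j, hj, h, hw⟩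
      · exact ⟨j, hj, i, hi, h, by rw [Set.union_comm]; exact hw⟩
    · rintro ⟨i, hi, j, hj, hij, hw⟩
      exact ⟨i, hi, j, hj, hij.ne, hw⟩
  rw [this]; exact h

lemma matching_of_perfect {k : ℕ} (A : Fin (2 * k) → Set Plane) (p : Plane)
    (M : (pg A p).Subgraph) (hM : M.IsPerfectMatching) : HasGoodMatching A := by
  classical
  have hex : ∀ v, ∃ w, M.Adj v w ∧ ∀ w', M.Adj v w' → w' = w := by
    intro v
    obtain ⟨w, hw, hw'⟩ := hM.1 (hM.2 v)
    exact ⟨w, hw, hw'⟩
  choose σ hσ hσu using hex
  have hinv : ∀ v, σ (σ v) = v := fun v => (hσu (σ v) v (hσ v).symm).symm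
  have hne : ∀ v, σ v ≠ v := fun v => (hσ v).adj_sub.1.symm
  have hinj : Function.Injective σ := fun a b h => by rw [← hinv a, h, hinv b]
  have hp : ∀ v, p ∈ convexHull ℝ (A v ∪ A (σ v)) := fun v => (hσ v).adj_sub.2
  set P : Finset (Fin (2 * k)) := Finset.univ.filter (fun v => v < σ v) with hP
  have hPc : P.card = k := by
    have h1 : (Finset.univ : Finset (Fin (2 * k))) = P ∪ P.image σ := by
      ext v
      simp only [Finset.mem_univ, Finset.mem_union, Finset.mem_image, true_iff]
      rcases lt_or_gt_of_ne (hne v) with h | h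
      · right
        refine ⟨σ v, ?_, hinv v⟩
        rw [hP, Finset.mem_filter]
        exact ⟨Finset.mem_univ _, by rw [hinv v]; exact h⟩
      · left
        rw [hP, Finset.mem_filter]
        exact ⟨Finset.mem_univ _, h⟩
    have h2 : Disjoint P (P.image σ) := by
      rw [Finset.disjoint_left]
      intro v hv hv'
      obtain ⟨w, hw, hwv⟩ := Finset.mem_image.1 hv'
      have h3 := (Finset.mem_filter.1 hv).2
      have h4 := (Finset.mem_filter.1 hw).2
      rw [← hwv, hinv w] at h3
      exact absurd h3 (not_lt.2 h4.le)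
    have h3 := congrArg Finset.card h1
    rw [Finset.card_univ, Fintype.card_fin, Finset.card_union_of_disjoint h2,
      Finset.card_image_of_injective _ hinj] at h3
    omega
  let e : Fin k ≃ P := (P.equivFinOfCardEq hPc).symm
  refine ⟨fun i => {(e i).1, σ (e i).1}, ?_, ?_, ?_, ⟨p, ?_⟩⟩
  · intro i
    exact Finset.card_pair (hne _).symm
  · intro i j hij
    have hne' : (e i).1 ≠ (e j).1 := fun h => hij (e.injective (Subtype.ext h))
    have hi := (Finset.mem_filter.1 (e i).2).2
    have hj := (Finset.mem_filter.1 (e j).2).2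
    rw [Finset.disjoint_left]
    intro v hv hv'
    simp only [Finset.mem_insert, Finset.mem_singleton] at hv hv'
    rcases hv with rfl | rfl <;> rcases hv' with h | h
    · exact hne' h
    · rw [h, hinv] at hi
      exact absurd hi (not_lt.2 hj.le)
    · rw [← h, hinv] at hj
      exact absurd hj (not_lt.2 hi.le)
    · exact hne' (hinj h)
  · intro v
    rcases lt_or_gt_of_ne (hne v) with h | h
    · have hmem : σ v ∈ P := by
        rw [hP, Finset.mem_filter]
        exact ⟨Finset.mem_univ _, by rw [hinv v]; exact h⟩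
      refine ⟨e.symm ⟨σ v, hmem⟩, ?_⟩
      simp [hinv]
    · have hmem : v ∈ P := by
        rw [hP, Finset.mem_filter]
        exact ⟨Finset.mem_univ _, h⟩
      refine ⟨e.symm ⟨v, hmem⟩, ?_⟩
      simp
  · rw [Set.mem_iInter]
    intro i
    have h1 : (⋃ v ∈ ({(e i).1, σ (e i).1} : Finset (Fin (2 * k))), A v) =
        A (e i).1 ∪ A (σ (e i).1) := by
      ext w
      simp
    rw [h1]
    exact hp _

/-- The answer to the question is yes, with `f n = ⌊(n + 9) / 4⌋`: this function is admissible, and
every family of `n = 2k ≥ 4` planar convex bodies in which every `f n`-tuple is tight has a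
matching whose pair hulls have a common point. -/
theorem result :
    Admissible (fun n => (n + 9) / 4) ∧
    ∀ k : ℕ, 2 ≤ k → ∀ A : Fin (2 * k) → Set Plane, (∀ i, IsBody (A i)) →
      (∀ S : Finset (Fin (2 * k)), S.card = (2 * k + 9) / 4 → IsTight A S) →
      HasGoodMatching A := by
  refine ⟨⟨?_, ?_, ?_⟩, ?_⟩
  · intro n hn _
    dsimp only
    omega
  · intro n n' _ h _ _
    dsimp only
    omega
  · intro C
    refine ⟨4 * C + 4, by omega, ⟨2 * C + 2, by omega⟩, ?_⟩
    dsimp only
    omega
  · intro k hk A hA ht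
    obtain ⟨p, M, hM⟩ := exists_point (n := 2 * k) (m := (2 * k + 9) / 4) ⟨k, by omega⟩
      (by omega) (by omega) A (fun i => (hA i).1) (fun i => (hA i).2.1)
      (fun i => (hA i).2.2.mono interior_subset)
      (fun S hS => tight_iff A S (ht S hS))
    exact matching_of_perfect A p M hM

end Pool.Agent.Results.MP_e1ee93_co.TightMatching
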